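import Pool.Agent.W2helper9.OP.Stm2

/-!
Project OP, part 2, pieces CASE0 and CASE1.
-/

set_option autoImplicit false

open MvPolynomial IsDedekindDomain NumberField Filter

namespace Pool.Agent.W2helper97.OP

open Pool.Agent.Helper819.Dyn (Tuple IsEnd)
open Pool.Agent.W2helper9.OP

lemma aeval_zero_of_hom {k E : Type} [Field k] [Field E] [Algebra k E] {n d : ℕ} (hd : 1 ≤ d)
    {p : MvPolynomial (Fin n) k} (hp : p.IsHomogeneous d) : aeval (0 : Fin n → E) p = 0 := by
  have h1 : aeval (0 : Fin n → E) p = algebraMap k E (constantCoeff p) := by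
    rw [← MvPolynomial.aeval_zero]
  rw [h1]
  have h2 : constantCoeff p = 0 := by
    rw [constantCoeff_eq]
    by_contra h
    have h3 := hp h
    simp at h3
    omega
  rw [h2, map_zero]

theorem p_CASE0 : P_CASE0 := by
  intro K _ _ N d F F' hd hF hF' hB γ hγ h0
  -- the last coordinate
  have hlast : ∀ x : Fin (N + 2) → K, (fun i : Fin (N + 1) => x i.castSucc) = 0 →
      ∀ y : Fin (N + 2) → K, (fun i : Fin (N + 1) => y i.castSucc) = 0 → y (Fin.last _) ≠ 0 →
      x = (x (Fin.last _) / y (Fin.last _)) • y := by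
    intro x hx y hy hy0
    funext i
    refine Fin.lastCases ?_ (fun j => ?_) i
    · rw [Pi.smul_apply, smul_eq_mul, div_mul_cancel₀ _ hy0]
    · have h1 := congrFun hx j
      have h2 := congrFun hy j
      simp only [Pi.zero_apply] at h1 h2
      rw [Pi.smul_apply, h1, h2, smul_zero]
  have hγl : γ (Fin.last _) ≠ 0 := by
    intro h
    apply hγ
    funext i
    refine Fin.lastCases h (fun j => ?_) i
    exact congrFun h0 j
  have h1 : (fun i : Fin (N + 1) => mp F γ i.castSucc) = 0 := by
    rw [hB.1 γ, h0]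
    funext i
    exact aeval_zero_of_hom hd (hF'.1 i)
  have h2 : mp F γ (Fin.last _) ≠ 0 := by
    intro h
    have h3 : mp F γ = 0 := by
      funext i
      refine Fin.lastCases h (fun j => ?_) i
      exact congrFun h1 j
    have h4 : ∀ i, aeval (fun j => algebraMap K (AlgebraicClosure K) (γ j)) (F i) = 0 := by
      intro i
      have h5 : aeval γ (F i) = 0 := congrFun h3 i
      have h6 : aeval (fun j => algebraMap K (AlgebraicClosure K) (γ j)) (F i)
          = algebraMap K (AlgebraicClosure K) (aeval γ (F i)) :=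
        MvPolynomial.aeval_algebraMap_apply (AlgebraicClosure K) γ (F i)
      rw [h6, h5, map_zero]
    have h7 := hF.2 _ h4
    have h8 := congrFun h7 (Fin.last _)
    apply hγl
    exact (map_eq_zero (algebraMap K (AlgebraicClosure K))).mp h8
  refine ⟨1, one_pos, γ (Fin.last _) / mp F γ (Fin.last _), div_ne_zero hγl h2, ?_⟩
  rw [Function.iterate_one]
  exact hlast γ h0 (mp F γ) h1 h2

lemma fin_val (K : Type) [Field K] [NumberField K] (x : K) (hx : x ≠ 0) :
    {v : HeightOneSpectrum (𝓞 K) | v.valuation K x ≠ 1}.Finite := by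
  refine ((HeightOneSpectrum.Support.finite (𝓞 K) x).union
    (HeightOneSpectrum.Support.finite (𝓞 K) x⁻¹)).subset ?_
  intro v hv
  rcases lt_or_gt_of_ne hv with h | h
  · right
    change 1 < v.valuation K x⁻¹
    rw [map_inv₀]
    exact (one_lt_inv₀ (by
      rw [zero_lt_iff]
      exact (Valuation.ne_zero_iff _).mpr hx)).mpr h
  · left
    exact h

theorem p_CASE1 : P_CASE1 := by
  intro K _ _ N F F' hB γ hγ hNP T hT
  have hT0 : (⋃ i ∈ {i : Fin (N + 2) | γ i ≠ 0},
      {v : HeightOneSpectrum (𝓞 K) | v.valuation K (γ i) ≠ 1}).Finite :=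
    Set.Finite.biUnion (Set.toFinite _) fun i hi => fin_val K (γ i) hi
  obtain ⟨v, hv, hk⟩ := hNP _ (hT.union hT0)
  have hv1 : v ∉ T := fun h => hv (Or.inl h)
  have hv2 : ∀ i, γ i ≠ 0 → v.valuation K (γ i) = 1 := by
    intro i hi
    by_contra h
    apply hv
    right
    rw [Set.mem_iUnion₂]
    exact ⟨i, hi, h⟩
  refine ⟨v, hv1, fun k hk0 hc => hk k hk0 ?_⟩
  have hit : ∀ k : ℕ, (fun i : Fin (N + 1) => ((mp F)^[k] γ) i.castSucc) =
      (mp F')^[k] (fun i => γ i.castSucc) := by
    intro k
    induction k with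
    | zero => rfl
    | succ k ih =>
      rw [Function.iterate_succ_apply', Function.iterate_succ_apply', hB.1, ih]
  obtain ⟨a, b, h1, ⟨i0, h2⟩, h3⟩ := hc
  have hb : v.valuation K b = 1 := by
    have h4 := h3 i0
    have h5 : v.valuation K (b * γ i0) = 1 := by
      have h6 := Valuation.map_sub_eq_of_lt_right (v.valuation K)
        (x := a * ((mp F)^[k] γ) i0 - b * γ i0) (y := a * ((mp F)^[k] γ) i0) (by rw [h2]; exact h4)
      rw [sub_sub_cancel_left, Valuation.map_neg, h2] at h6
      exact h6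
    have h7 : γ i0 ≠ 0 := by
      intro h
      rw [h, mul_zero, map_zero] at h5
      exact zero_ne_one h5
    rw [map_mul, hv2 i0 h7, mul_one] at h5
    exact h5
  obtain ⟨j, hj⟩ := Function.ne_iff.mp hγ
  have hj' : γ j.castSucc ≠ 0 := hj
  have h8 : v.valuation K (b * γ j.castSucc) = 1 := by
    rw [map_mul, hb, hv2 _ hj', one_mul]
  have h9 : v.valuation K (a * ((mp F)^[k] γ) j.castSucc) = 1 := by
    have h4 := h3 j.castSucc
    have h6 := Valuation.map_add_eq_of_lt_right (v.valuation K)
      (x := a * ((mp F)^[k] γ) j.castSucc - b * γ j.castSucc) (y := b * γ j.castSucc)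
      (by rw [h8]; exact h4)
    rw [sub_add_cancel, h8] at h6
    exact h6
  rw [← hit k]
  exact ⟨a, b, fun i => h1 i.castSucc, ⟨j, h9⟩, fun i => h3 i.castSucc⟩

end Pool.Agent.W2helper97.OP
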